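import Pool.Agent.helper38.TA.SpecK

/-!
# Project TA, row MKJ: the Mellin transforms of the functions `kf μ j`
-/

set_option autoImplicit false

open Complex MeasureTheory Set Filter Topology

namespace Pool.Agent.TA

open Pool.Agent.BA (Par GG kl kf vf fV Bw Den PP wt lam gpf rgz)

theorem MKJ_cont (bKD : Pool.Agent.BA.KD_stmt) (n j : ℕ) (μ : Fin n → ℝ) (hμ : Par 1 μ) :
    ContinuousOn (fun x : ℝ => (kf μ j x : ℂ)) (Ioi 0) := by
  intro x hx
  have h1 : ContinuousAt (kf μ j) x := (bKD n j μ hμ x hx).1.continuousAt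
  exact (Complex.continuous_ofReal.continuousAt.comp h1).continuousWithinAt

theorem MKJ_conv (bKC : Pool.Agent.BA.KC_stmt) (bKD : Pool.Agent.BA.KD_stmt) (n j : ℕ)
    (μ : Fin n → ℝ) (hμ : Par 1 μ) (s : ℂ) (hs : 0 < s.re) :
    MellinConvergent (fun x => (kf μ j x : ℂ)) s := by
  obtain ⟨C, hC, h1⟩ := bKC n j μ (s.re + 1) hμ (by linarith)
  obtain ⟨D, hD, h2⟩ := bKC n j μ (s.re / 2) hμ (by linarith)
  refine mellinConvergent_of_isBigO_rpow (a := s.re + 1) (b := s.re / 2)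
    ((MKJ_cont bKD n j μ hμ).locallyIntegrableOn measurableSet_Ioi) ?_ (by linarith) ?_ (by linarith)
  · refine Asymptotics.IsBigO.of_bound C ?_
    filter_upwards [eventually_gt_atTop (0 : ℝ)] with x hx
    rw [Complex.norm_real, Real.norm_eq_abs, Real.norm_eq_abs,
      abs_of_pos (Real.rpow_pos_of_pos hx _)]
    exact h1 x hx
  · refine Asymptotics.IsBigO.of_bound D ?_
    filter_upwards [self_mem_nhdsWithin] with x hx
    rw [Complex.norm_real, Real.norm_eq_abs, Real.norm_eq_abs,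
      abs_of_pos (Real.rpow_pos_of_pos hx _)]
    exact h2 x hx

theorem MKJ_step (bKC : Pool.Agent.BA.KC_stmt) (bKD : Pool.Agent.BA.KD_stmt) (n j : ℕ)
    (μ : Fin n → ℝ) (hμ : Par 1 μ) (s : ℂ) (hs : 0 < s.re) :
    mellin (fun x => (kf μ (j + 1) x : ℂ)) s = -s * mellin (fun x => (kf μ j x : ℂ)) s := by
  have hs0 : s ≠ 0 := by
    intro h
    rw [h] at hs
    exact lt_irrefl _ hs
  have hc0 := MKJ_conv bKC bKD n j μ hμ s hs
  have hc1 := MKJ_conv bKC bKD n (j + 1) μ hμ s hs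
  have hnorm : ∀ x : ℝ, 0 < x → ‖((x : ℂ) ^ s / s) * (kf μ j x : ℂ)‖ =
      ‖s‖⁻¹ * (x ^ s.re * |kf μ j x|) := by
    intro x hx
    rw [norm_mul, norm_div, Complex.norm_cpow_eq_rpow_re_of_pos hx, Complex.norm_real,
      Real.norm_eq_abs]
    ring
  have huv : ∀ x ∈ Ioi (0 : ℝ), ((x : ℂ) ^ s / s) * ((kf μ (j + 1) x / x : ℝ) : ℂ) =
      s⁻¹ * ((x : ℂ) ^ (s - 1) • (kf μ (j + 1) x : ℂ)) := by
    intro x hx
    have hx0 : (x : ℂ) ≠ 0 := Complex.ofReal_ne_zero.2 (ne_of_gt hx)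
    rw [Complex.cpow_sub _ _ hx0, Complex.cpow_one, smul_eq_mul, Complex.ofReal_div]
    field_simp
  have key := integral_Ioi_mul_deriv_eq_deriv_mul (a := (0 : ℝ)) (a' := (0 : ℂ)) (b' := (0 : ℂ))
    (u := fun x : ℝ => (x : ℂ) ^ s / s) (v := fun x : ℝ => (kf μ j x : ℂ))
    (u' := fun x : ℝ => (x : ℂ) ^ (s - 1)) (v' := fun x : ℝ => ((kf μ (j + 1) x / x : ℝ) : ℂ))
    (fun x hx => by
      have h := (hasDerivAt_ofReal_cpow_const (x := x) (ne_of_gt hx) hs0).div_const s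
      rw [mul_div_cancel_left₀ _ hs0] at h
      exact h)
    (fun x hx => ((bKD n j μ hμ x hx).1).ofReal_comp)
    (by
      have h : IntegrableOn (fun x : ℝ => s⁻¹ * ((x : ℂ) ^ (s - 1) • (kf μ (j + 1) x : ℂ))) (Ioi 0) :=
        hc1.const_mul _
      exact h.congr_fun (fun x hx => (huv x hx).symm) measurableSet_Ioi)
    (by exact hc0)
    (by
      obtain ⟨D, hD, h2⟩ := bKC n j μ (s.re / 2) hμ (by linarith)
      refine squeeze_zero_norm' (a := fun x : ℝ => ‖s‖⁻¹ * (D * x ^ (s.re / 2))) ?_ ?_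
      · filter_upwards [self_mem_nhdsWithin] with x hx
        have hx' : (0 : ℝ) < x := hx
        rw [Pi.mul_apply, hnorm x hx']
        refine mul_le_mul_of_nonneg_left ?_ (inv_nonneg.2 (norm_nonneg _))
        have h3 : x ^ s.re = x ^ (s.re / 2) * x ^ (s.re / 2) := by
          rw [← Real.rpow_add hx']
          congr 1
          ring
        have h4 : x ^ (s.re / 2) * x ^ (-(s.re / 2)) = 1 := by
          rw [← Real.rpow_add hx', add_neg_cancel, Real.rpow_zero]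
        calc x ^ s.re * |kf μ j x| ≤ x ^ s.re * (D * x ^ (-(s.re / 2))) :=
              mul_le_mul_of_nonneg_left (h2 x hx') (Real.rpow_nonneg hx'.le _)
          _ = D * x ^ (s.re / 2) * (x ^ (s.re / 2) * x ^ (-(s.re / 2))) := by rw [h3]; ring
          _ = D * x ^ (s.re / 2) := by rw [h4, mul_one]
      · have h5 : Tendsto (fun x : ℝ => x ^ (s.re / 2)) (𝓝[>] 0) (𝓝 0) := by
          have h6 : ContinuousAt (fun x : ℝ => x ^ (s.re / 2)) 0 :=
            Real.continuousAt_rpow_const 0 (s.re / 2) (Or.inr (by linarith))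
          have h7 : Tendsto (fun x : ℝ => x ^ (s.re / 2)) (𝓝 0) (𝓝 ((0 : ℝ) ^ (s.re / 2))) := h6
          rw [Real.zero_rpow (by linarith)] at h7
          exact h7.mono_left nhdsWithin_le_nhds
        have h8 := (h5.const_mul D).const_mul ‖s‖⁻¹
        rw [mul_zero, mul_zero] at h8
        exact h8)
    (by
      obtain ⟨D, hD, h2⟩ := bKC n j μ (s.re + 1) hμ (by linarith)
      refine squeeze_zero_norm' (a := fun x : ℝ => ‖s‖⁻¹ * (D * x ^ (-1 : ℝ))) ?_ ?_
      · filter_upwards [eventually_gt_atTop (0 : ℝ)] with x hx'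
        rw [Pi.mul_apply, hnorm x hx']
        refine mul_le_mul_of_nonneg_left ?_ (inv_nonneg.2 (norm_nonneg _))
        have h4 : x ^ s.re * x ^ (-(s.re + 1)) = x ^ (-1 : ℝ) := by
          rw [← Real.rpow_add hx']
          congr 1
          ring
        calc x ^ s.re * |kf μ j x| ≤ x ^ s.re * (D * x ^ (-(s.re + 1))) :=
              mul_le_mul_of_nonneg_left (h2 x hx') (Real.rpow_nonneg hx'.le _)
          _ = D * (x ^ s.re * x ^ (-(s.re + 1))) := by ring
          _ = D * x ^ (-1 : ℝ) := by rw [h4]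
      · have h8 := ((tendsto_rpow_neg_atTop (y := 1) one_pos).const_mul D).const_mul ‖s‖⁻¹
        rw [mul_zero, mul_zero] at h8
        exact h8)
  rw [setIntegral_congr_fun measurableSet_Ioi huv, sub_zero, zero_sub, integral_const_mul] at key
  unfold mellin
  have h9 : (∫ (x : ℝ) in Ioi 0, (x : ℂ) ^ (s - 1) • (kf μ (j + 1) x : ℂ)) =
      s * (s⁻¹ * ∫ (x : ℝ) in Ioi 0, (x : ℂ) ^ (s - 1) • (kf μ (j + 1) x : ℂ)) := by
    rw [← mul_assoc, mul_inv_cancel₀ hs0, one_mul]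
  rw [h9, key]
  simp only [smul_eq_mul]
  ring

theorem MKJ (bKB : Pool.Agent.BA.KB_stmt) (bKC : Pool.Agent.BA.KC_stmt)
    (bKD : Pool.Agent.BA.KD_stmt) : MKJ_stmt := by
  intro n j μ hμ s hs
  refine ⟨MKJ_conv bKC bKD n j μ hμ s hs, ?_⟩
  induction j with
  | zero => rw [((bKB n μ hμ).2.1 s hs).2, pow_zero, one_mul]
  | succ j ih => rw [MKJ_step bKC bKD n j μ hμ s hs, ih, pow_succ]; ring

end Pool.Agent.TA
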